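import Pool.Agent.Y570.OS.Main

/-!
# All recognition problems between outside obstacles and one connected obstacle are NP-hard

The starting file `SingleObstacleNPHard` shows that it is NP-hard to decide whether a graph has a
single-obstacle representation. Here this is proved for all decision problems between two extremes:
on the one side the graphs that consist of two disjoint copies of one graph and have an
outside-obstacle representation in which it does not matter whether the obstacle is the open or
the closed polygon; on the other side the graphs which can be represented with any connected set of
points of the plane as the obstacle. Even the gap between the two is of no help for algorithms.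
-/

set_option autoImplicit false

namespace Pool.Agent.Results.MP_3b0ea9_lc.ConnectedSandwich

open Pool.Agent.NPC Pool.Agent.H679R2 Pool.Agent.H670R5 Pool.Agent.Y570.OS

/-- (1) Every decision problem `P` about graphs is NP-hard if its answer is yes for all graphs which
consist of two disjoint copies of one graph and have a strong outside-obstacle representation, and
its answer is yes only for graphs which have a representation with one connected obstacle. (2) This
holds for representations with one obstacle of the class `𝒪`, for every class `𝒪` of connected sets
which contains all interiors of simple polygons or all closed polygons. (3) It holds for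
outside-obstacle and for single-obstacle representations; (4) and, with a problem `P`, for the
restriction of `P` to graphs which consist of two disjoint copies of one graph. (5) If `P ≠ NP` then no
polynomial-time algorithm separates the graphs which consist of two disjoint copies of one graph
and have a strong outside-obstacle representation from the graphs which have no representation with
one connected obstacle. (6) SINGLE-OBSTACLE is NP-hard, also for graphs which consist of two disjoint
copies of one graph. -/
theorem result :
    (∀ P : List ℕ × List (ℕ × ℕ) → Prop,
      IsBetween (fun I => TwoCopies I ∧ StrongOutsideObs I) P → NPHardP P) ∧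
    (∀ 𝒪 : Set Pl → Prop,
      ((∀ l C, IsSimplePolygon l → IsSideOf l C → Bornology.IsBounded C → 𝒪 C) ∨
        ∀ C, ClosedPolygon C → 𝒪 C) →
      (∀ C, 𝒪 C → IsPreconnected C) →
      IsBetween (fun I => TwoCopies I ∧ StrongOutsideObs I) (ObsOf 𝒪)) ∧
    (IsBetween (fun I => TwoCopies I ∧ StrongOutsideObs I) OutsideObs ∧
      IsBetween (fun I => TwoCopies I ∧ StrongOutsideObs I) SingleObs) ∧
    (∀ P : List ℕ × List (ℕ × ℕ) → Prop,
      IsBetween (fun I => TwoCopies I ∧ StrongOutsideObs I) P →
      IsBetween (fun I => TwoCopies I ∧ StrongOutsideObs I) (fun I => TwoCopies I ∧ P I)) ∧
    (Separable (fun I => TwoCopies I ∧ StrongOutsideObs I) ConnectedObs → PEqNP) ∧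
    (NPHardP SingleObs ∧ NPHardP (fun I => TwoCopies I ∧ SingleObs I)) :=
  ⟨fun _ h => (hard5 h).toNPHardP, fun _ h1 h2 => between_class h1 h2,
    ⟨between_out, between_single⟩, fun _ h => between_two h, sep_out,
    (hard5 between_single).toNPHardP, (hard5 (between_two between_single)).toNPHardP⟩

end Pool.Agent.Results.MP_3b0ea9_lc.ConnectedSandwich
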